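import Mathlib

/-!
# Statements of the project AS (MP_15e61c_co): `3 / 4 ≤ c' ≤ 10 / 11`
-/

set_option autoImplicit false

open scoped Pointwise

namespace Pool.Agent.Q109.AS

/-- the set `S(a)` -/
def S (n : ℕ) (a : ℕ → ℕ) : Set ℕ :=
  {z | ∃ i j : ℕ, 1 ≤ i ∧ i < j ∧ j ≤ n ∧ z = a i + a j + (j - i)}

/-- the property `P(c)` -/
def P (c : ℝ) : Prop :=
  ∃ δ : ℝ, 0 < δ ∧ ∃ n₀ : ℕ, ∀ n : ℕ, n₀ ≤ n → ∀ a : ℕ → ℕ,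
    (∀ i, 1 ≤ i → i ≤ n → (a i : ℝ) ≤ (n : ℝ) ^ c) → δ * (n : ℝ) ^ c ≤ ((S n a).ncard : ℝ)

/-- **CH**. Proof: with `x = #(U (2k))`, `y = #(V (2k+2))`, three sets `U0 = U (2k)`, `V1 = V (2k+1)`,
`U1 = U (2k+1)`, `V2 = V (2k+2)`: `M * #U0 * #V2 ≤ #(V1 - U1) * #U0 * #V2 ≤ #(V1+U0) * #(U0+U1) * #V2`
(`Finset.ruzsa_triangle_inequality_sub_add_add`) `≤ #(V1+U0) * #(U0+V2) * #(V2+U1)`
(`Finset.ruzsa_triangle_inequality_add_add_add`) `≤ s^2 s'`. Multiply over `k < K`; as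
`M ≤ #(V k - U k) ≤ #(V k) * #(U k)`, the product of the `#(U (2k)) * #(V (2k+2))` is at least
`M^(K-1)`. -/
def S_CH : Prop := ∀ (K M s s' : ℕ) (U V : ℕ → Finset ℤ), 1 ≤ K →
  (∀ k, (U k).Nonempty) → (∀ k, (V k).Nonempty) → (∀ k, M ≤ (V k - U k).card) →
  (∀ k < 2 * K, (U k + V (k + 1)).card ≤ s) →
  (∀ k, k + 2 ≤ 2 * K → (U k + V (k + 2)).card ≤ s') → M ^ (2 * K - 1) ≤ (s ^ 2 * s') ^ K

/-- **WIN** -/
def S_WIN : Prop := ∀ (K M X n : ℕ) (a : ℕ → ℕ), 1 ≤ K → 1 ≤ M → (∀ i, 1 ≤ i → i ≤ n → a i ≤ M) →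
  (16 * K * X + 1) * M ≤ n → ∃ y : ℕ, M ^ (2 * K - 1) ≤ y ^ (3 * K) ∧ X * y ≤ (S n a).ncard

/-- **LOW** (from `S_WIN`). Proof: `c = 3K/(4K+1)`, `M = ⌈n^c⌉` (so `n^c ≤ M ≤ 2 n^c` for `n ≥ 1`), `X` the
largest number with `(16 K X + 1) M ≤ n`, so `X ≥ n / (64 K M)` for `n` large, since `n / M → ∞`. Then
`y ≥ M^((2K-1)/(3K))` and `X y ≥ n^(1-c) n^(c (2K-1)/(3K)) / (128 K) = n^c / (128 K)`. -/
def S_LOW : Prop := S_WIN → ∀ K : ℕ, 1 ≤ K → P (3 * K / (4 * K + 1))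

/-- **UP**. Proof: the digits `b = ![6, 7, 4, 5, 10, 1, 0, 1, 10, 5, 4, 7, 6]`, i.e. `b r = x + y` where
`r = x - y + 6` with `x, y` in `{0, 1, 4, 6}`; `b r - r + b s + s` takes only the `10` values `2 (x + y)`,
`x, y` in `{0, 1, 4, 6}` (`decide`). `B (K+1) i = b (i % 13) + 13 * B K (i / 13)`, `B 0 i = 0`; then
`B K i < 13^K` and the numbers `B K i - i + B K j + j` (`i, j < 13^K`, integers) form a set of at most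
`10^K` elements (induction). With `m = 13^(10 L)`, `a i = B (10 L) (i % m)`: for `i = T m + r`,
`j = T' m + r'`, `a i + a j + (j - i) = (T' - T) m + (B r - r + B r' + r')` with `0 ≤ T' - T ≤ 13^L`. -/
def S_UP : Prop := ∀ L : ℕ, ∃ a : ℕ → ℕ, (∀ i, a i < 13 ^ (10 * L)) ∧
  (S (13 ^ (11 * L)) a).ncard ≤ (13 ^ L + 1) * 10 ^ (10 * L)

/-- **NP** (from `S_UP`). Proof: `n = 13^(11 L)`, `n^(10/11) = 13^(10 L)`, and
`(13^L + 1) 10^(10 L) ≤ 2 (13 * 10^10)^L < δ (13^10)^L` for `L` large, since `13 * 10^10 < 13^10`. -/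
def S_NP : Prop := S_UP → ¬ P (10 / 11)

end Pool.Agent.Q109.AS
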